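import Pool.Agent.TH722.PN.Cone
import Pool.Agent.TH722.PN.Norm

/-!
# The leading coefficient of `A(x) + y B(x)` (second proof of job 4477)
-/

set_option autoImplicit false

namespace Pool.Agent.TH443.PN

open Pool.Agent.TH722.PN

variable {F : Type} [Field F]

lemma cone_zero (τ b : ℝ) : Cone τ b (0 : HahnSeries ℝ (AddMonoidAlgebra F (ℤ × ℤ))) := by
  intro a i m h
  exact absurd rfl h

lemma cone_sum (τ b : ℝ) (s : Finset ℕ) (f : ℕ → HahnSeries ℝ (AddMonoidAlgebra F (ℤ × ℤ)))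
    (h : ∀ n ∈ s, Cone τ b (f n)) : Cone τ b (∑ n ∈ s, f n) := by
  classical
  induction s using Finset.induction_on with
  | empty => rw [Finset.sum_empty]; exact cone_zero τ b
  | insert n s hn ih =>
    rw [Finset.sum_insert hn]
    exact (h n (Finset.mem_insert_self n s)).add (ih fun j hj => h j (Finset.mem_insert_of_mem hj))

lemma Ep_zero (τ b : ℝ) : Ep τ b (0 : HahnSeries ℝ (AddMonoidAlgebra F (ℤ × ℤ))) = 0 := by
  ext k
  unfold Ep
  rw [PowerSeries.coeff_mk, map_zero]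
  rfl

lemma Em_zero (τ b : ℝ) : Em τ b (0 : HahnSeries ℝ (AddMonoidAlgebra F (ℤ × ℤ))) = 0 := by
  ext k
  unfold Em
  rw [PowerSeries.coeff_mk, map_zero]
  rfl

lemma Ep_sum (τ b : ℝ) (s : Finset ℕ) (f : ℕ → HahnSeries ℝ (AddMonoidAlgebra F (ℤ × ℤ))) :
    Ep τ b (∑ n ∈ s, f n) = ∑ n ∈ s, Ep τ b (f n) := by
  classical
  induction s using Finset.induction_on with
  | empty => rw [Finset.sum_empty, Finset.sum_empty]; exact Ep_zero τ b
  | insert n s hn ih => rw [Finset.sum_insert hn, Finset.sum_insert hn, Ep_add, ih]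

lemma Em_sum (τ b : ℝ) (s : Finset ℕ) (f : ℕ → HahnSeries ℝ (AddMonoidAlgebra F (ℤ × ℤ))) :
    Em τ b (∑ n ∈ s, f n) = ∑ n ∈ s, Em τ b (f n) := by
  classical
  induction s using Finset.induction_on with
  | empty => rw [Finset.sum_empty, Finset.sum_empty]; exact Em_zero τ b
  | insert n s hn ih => rw [Finset.sum_insert hn, Finset.sum_insert hn, Em_add, ih]

/-- the part of order `b` of a polynomial -/
noncomputable def lbp (b : ℝ) (P : Polynomial (HahnSeries ℝ F)) : Polynomial F :=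
  ∑ n ∈ Finset.range (P.natDegree + 1),
    Polynomial.C ((P.coeff n).coeff b) * Polynomial.X ^ n

lemma lbp_coeff (b : ℝ) (P : Polynomial (HahnSeries ℝ F)) (k : ℕ) :
    (lbp b P).coeff k = (P.coeff k).coeff b := by
  unfold lbp
  rw [Polynomial.finsetSum_coeff]
  simp only [Polynomial.coeff_C_mul_X_pow]
  rw [Finset.sum_ite_eq]
  split_ifs with h
  · rfl
  · rw [Finset.mem_range, not_lt] at h
    rw [Polynomial.coeff_eq_zero_of_natDegree_lt (by omega)]
    rfl

lemma lbp_coe (b : ℝ) (P : Polynomial (HahnSeries ℝ F)) :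
    (lbp b P : PowerSeries F) = ∑ n ∈ Finset.range (P.natDegree + 1),
      PowerSeries.C ((P.coeff n).coeff b) * PowerSeries.X ^ n := by
  have h : (lbp b P : PowerSeries F) = Polynomial.coeToPowerSeries.ringHom (lbp b P) := rfl
  rw [h]
  unfold lbp
  rw [map_sum]
  refine Finset.sum_congr rfl fun n _ => ?_
  rw [map_mul, map_pow]
  rw [Polynomial.coeToPowerSeries.ringHom_apply, Polynomial.coeToPowerSeries.ringHom_apply,
    Polynomial.coe_C, Polynomial.coe_X]

lemma cone_eval {τ b : ℝ} {x : HahnSeries ℝ (AddMonoidAlgebra F (ℤ × ℤ))} (hx : Cone τ 0 x)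
    {P : Polynomial (HahnSeries ℝ F)} (hP : ∀ n, Low (P.coeff n) b) :
    Cone τ b (P.eval₂ incl x) := by
  rw [Polynomial.eval₂_eq_sum_range]
  refine cone_sum τ b _ _ fun n _ => ?_
  have h := (cone_incl τ (hP n)).mul (hx.pow n)
  rwa [add_zero] at h

lemma Ep_eval {τ b : ℝ} {x : HahnSeries ℝ (AddMonoidAlgebra F (ℤ × ℤ))} (hx : Cone τ 0 x)
    (hxp : Ep τ 0 x = PowerSeries.X)
    {P : Polynomial (HahnSeries ℝ F)} (hP : ∀ n, Low (P.coeff n) b) :
    Ep τ b (P.eval₂ incl x) = (lbp b P : PowerSeries F) := by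
  rw [Polynomial.eval₂_eq_sum_range, Ep_sum, lbp_coe]
  refine Finset.sum_congr rfl fun n _ => ?_
  have h := Ep_mul (incl (P.coeff n)) (x ^ n) (cone_incl τ (hP n)) (hx.pow n)
  rw [add_zero] at h
  rw [h, Ep_incl, Ep_pow hx, hxp]

lemma Em_eval {τ b : ℝ} {x : HahnSeries ℝ (AddMonoidAlgebra F (ℤ × ℤ))} (hx : Cone τ 0 x)
    (hxm : Em τ 0 x = PowerSeries.X)
    {P : Polynomial (HahnSeries ℝ F)} (hP : ∀ n, Low (P.coeff n) b) :
    Em τ b (P.eval₂ incl x) = (lbp b P : PowerSeries F) := by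
  rw [Polynomial.eval₂_eq_sum_range, Em_sum, lbp_coe]
  refine Finset.sum_congr rfl fun n _ => ?_
  have h := Em_mul (incl (P.coeff n)) (x ^ n) (cone_incl τ (hP n)) (hx.pow n)
  rw [add_zero] at h
  rw [h, Em_incl, Em_pow hx, hxm]

lemma exists_b {A B : Polynomial (HahnSeries ℝ F)} (hne : A ≠ 0 ∨ B ≠ 0) :
    ∃ b : ℝ, (∀ n, Low (A.coeff n) b) ∧ (∀ n, Low (B.coeff n) b) ∧
      (lbp b A ≠ 0 ∨ lbp b B ≠ 0) := by
  classical
  obtain ⟨s, hs⟩ : ∃ s : Finset ℝ, s = A.support.image (fun n => (A.coeff n).order) ∪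
    B.support.image (fun n => (B.coeff n).order) := ⟨_, rfl⟩
  have hsne : s.Nonempty := by
    rw [hs, Finset.union_nonempty, Finset.image_nonempty, Finset.image_nonempty,
      Polynomial.support_nonempty, Polynomial.support_nonempty]
    exact hne
  have hA : ∀ n, A.coeff n ≠ 0 → s.min' hsne ≤ (A.coeff n).order := by
    intro n hn
    refine Finset.min'_le _ _ ?_
    rw [hs]
    exact Finset.mem_union_left _ (Finset.mem_image_of_mem _ (Polynomial.mem_support_iff.2 hn))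
  have hB : ∀ n, B.coeff n ≠ 0 → s.min' hsne ≤ (B.coeff n).order := by
    intro n hn
    refine Finset.min'_le _ _ ?_
    rw [hs]
    exact Finset.mem_union_right _ (Finset.mem_image_of_mem _ (Polynomial.mem_support_iff.2 hn))
  refine ⟨s.min' hsne, ?_, ?_, ?_⟩
  · intro n a ha
    by_cases h0 : A.coeff n = 0
    · rw [h0]; rfl
    · exact HahnSeries.coeff_eq_zero_of_lt_order (lt_of_lt_of_le ha (hA n h0))
  · intro n a ha
    by_cases h0 : B.coeff n = 0
    · rw [h0]; rfl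
    · exact HahnSeries.coeff_eq_zero_of_lt_order (lt_of_lt_of_le ha (hB n h0))
  · have hmem := Finset.min'_mem s hsne
    obtain ⟨b, hb⟩ : ∃ b, b = s.min' hsne := ⟨_, rfl⟩
    rw [← hb] at hmem ⊢
    rw [hs, Finset.mem_union, Finset.mem_image, Finset.mem_image] at hmem
    rcases hmem with ⟨n, hn, hnb⟩ | ⟨n, hn, hnb⟩
    · left
      intro h
      have h1 := congrArg (fun p => Polynomial.coeff p n) h
      simp only [lbp_coeff, Polynomial.coeff_zero] at h1
      rw [← hnb, HahnSeries.coeff_order_eq_zero] at h1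
      exact (Polynomial.mem_support_iff.1 hn) h1
    · right
      intro h
      have h1 := congrArg (fun p => Polynomial.coeff p n) h
      simp only [lbp_coeff, Polynomial.coeff_zero] at h1
      rw [← hnb, HahnSeries.coeff_order_eq_zero] at h1
      exact (Polynomial.mem_support_iff.1 hn) h1

theorem lead_g [CharZero F] {τ : ℝ} (h0 : 0 < τ) (h1 : τ < 1 / 2)
    {x y : HahnSeries ℝ (AddMonoidAlgebra F (ℤ × ℤ))} {s : PowerSeries F}
    (hs : s ^ 2 = 1 + PowerSeries.X) (hx : Cone τ 0 x) (hy : Cone τ 0 y)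
    (hxp : Ep τ 0 x = PowerSeries.X) (hxm : Em τ 0 x = PowerSeries.X)
    (hyp : Ep τ 0 y = PowerSeries.X * s) (hym : Em τ 0 y = -(PowerSeries.X * s))
    {c δ : ℕ} (hδ : 2 ≤ δ) {A B : Polynomial (HahnSeries ℝ F)}
    (hA : ∀ n, A.coeff n ≠ 0 → n ≤ c) (hB : ∀ n, B.coeff n ≠ 0 → n + δ ≤ c)
    (hne : A ≠ 0 ∨ B ≠ 0) :
    ∃ a b : ℝ, (∀ n, Low (A.coeff n) b) ∧ (∀ n, Low (B.coeff n) b) ∧ a ≤ b + 2 * c * τ ∧
      Low (A.eval₂ incl x + y * B.eval₂ incl x) a ∧
      (A.eval₂ incl x + y * B.eval₂ incl x).coeff a ≠ 0 ∧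
      ∀ i m, cf (A.eval₂ incl x + y * B.eval₂ incl x) a i m ≠ 0 →
        m = 0 ∧ -(2 * τ * c) ≤ (i : ℝ) ∧ (i : ℝ) ≤ (2 - 2 * τ) * c := by
  obtain ⟨b, hbA, hbB, hbne⟩ := exists_b hne
  obtain ⟨G, hG⟩ : ∃ G, G = A.eval₂ incl x + y * B.eval₂ incl x := ⟨_, rfl⟩
  rw [← hG]
  have hyB : Cone τ b (y * B.eval₂ incl x) := by
    have h := hy.mul (cone_eval hx hbB)
    rwa [zero_add] at h
  have hcone : Cone τ b G := by
    rw [hG]
    exact (cone_eval hx hbA).add hyB
  have hEp : Ep τ b G = (lbp b A : PowerSeries F) +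
      PowerSeries.X * s * (lbp b B : PowerSeries F) := by
    have h := Ep_mul y (B.eval₂ incl x) hy (cone_eval hx hbB)
    rw [zero_add] at h
    rw [hG, Ep_add, Ep_eval hx hxp hbA, h, Ep_eval hx hxp hbB, hyp]
  have hEm : Em τ b G = (lbp b A : PowerSeries F) -
      PowerSeries.X * s * (lbp b B : PowerSeries F) := by
    have h := Em_mul y (B.eval₂ incl x) hy (cone_eval hx hbB)
    rw [zero_add] at h
    rw [hG, Em_add, Em_eval hx hxm hbA, h, Em_eval hx hxm hbB, hym]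
    ring
  have hA' : ∀ n, (lbp b A).coeff n ≠ 0 → n ≤ c := by
    intro n hn
    refine hA n fun h => hn ?_
    rw [lbp_coeff, h]
    rfl
  have hB' : ∀ n, (lbp b B).coeff n ≠ 0 → n + δ ≤ c := by
    intro n hn
    refine hB n fun h => hn ?_
    rw [lbp_coeff, h]
    rfl
  obtain ⟨α, β, hαβ, hα, hβ⟩ := norm_bound hs hδ hA' hB' hbne
  rw [← hEp] at hα
  rw [← hEm] at hβ
  have hα' : G.coeff (b + τ * α) ≠ 0 := by
    intro h
    apply hα
    unfold Ep cf
    rw [PowerSeries.coeff_mk, h]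
    rfl
  have hβ' : G.coeff (b + (1 - τ) * β) ≠ 0 := by
    intro h
    apply hβ
    unfold Em cf
    rw [PowerSeries.coeff_mk, h]
    rfl
  have hG0 : G ≠ 0 := by
    rintro rfl
    exact hα' rfl
  have ha1 : G.order ≤ b + τ * α := HahnSeries.order_le_of_coeff_ne_zero hα'
  have ha2 : G.order ≤ b + (1 - τ) * β := HahnSeries.order_le_of_coeff_ne_zero hβ'
  have hαβ' : (α : ℝ) + β ≤ 2 * c := by exact_mod_cast hαβ
  have hα0 : (0 : ℝ) ≤ α := Nat.cast_nonneg α
  have hβ0 : (0 : ℝ) ≤ β := Nat.cast_nonneg β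
  have hτ1 : 0 < 1 - τ := by linarith
  -- `order - b ≤ 2 c τ (1 - τ)`
  have hM : G.order - b ≤ 2 * c * τ * (1 - τ) := by
    have e1 : (1 - τ) * (G.order - b) ≤ (1 - τ) * (τ * α) :=
      mul_le_mul_of_nonneg_left (by linarith) hτ1.le
    have e2 : τ * (G.order - b) ≤ τ * ((1 - τ) * β) :=
      mul_le_mul_of_nonneg_left (by linarith) h0.le
    have e3 : τ * (1 - τ) * (α + β) ≤ τ * (1 - τ) * (2 * c) :=
      mul_le_mul_of_nonneg_left hαβ' (mul_nonneg h0.le hτ1.le)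
    nlinarith
  refine ⟨G.order, b, hbA, hbB, ?_, ?_, ?_, ?_⟩
  · have e1 : τ * α ≤ τ * (2 * c) := mul_le_mul_of_nonneg_left (by linarith) h0.le
    linarith
  · intro a ha
    exact HahnSeries.coeff_eq_zero_of_lt_order ha
  · exact fun h => hG0 (HahnSeries.coeff_order_eq_zero.1 h)
  · intro i m him
    obtain ⟨h2, h3, h4⟩ := hcone _ _ _ him
    refine ⟨h2, ?_, ?_⟩
    · have e1 : (1 - τ) * (-(2 * τ * c)) ≤ (1 - τ) * (i : ℝ) := by linarith
      exact le_of_mul_le_mul_left e1 hτ1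
    · have e1 : τ * (i : ℝ) ≤ τ * ((2 - 2 * τ) * c) := by linarith
      exact le_of_mul_le_mul_left e1 h0

end Pool.Agent.TH443.PN
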